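import Pool.Agent.BOX.StmtsG
import Pool.Agent.Helper59_BE01.Trj

/-!
# BOX, row AMP: the amplitude
-/

set_option autoImplicit false

namespace Pool.Agent.BOX.H52

open Filter Topology Pool.Agent.BOX

theorem amp : AmpStmt := by
  intro K β hK hβ
  set a : Polynomial ℝ := -∑ i ∈ Finset.Icc 1 K, Polynomial.C (β i) * Polynomial.X ^ i with ha
  have haev : ∀ x : ℝ, a.eval x = -∑ i ∈ Finset.Icc 1 K, β i * x ^ i := by
    intro x
    rw [ha, Polynomial.eval_neg, Polynomial.eval_finset_sum]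
    simp
  have h0 : a.eval 0 = 0 := by
    rw [haev, Finset.sum_eq_zero, neg_zero]
    intro i hi
    have h1 : 1 ≤ i := (Finset.mem_Icc.1 hi).1
    rw [zero_pow (by omega), mul_zero]
  have h1 : a.coeff 1 = -β 1 := by
    rw [ha, Polynomial.coeff_neg, Polynomial.finset_sum_coeff, Finset.sum_eq_single 1]
    · simp
    · intro i _ hi
      rw [Polynomial.coeff_C_mul, Polynomial.coeff_X_pow, if_neg (fun h => hi h.symm), mul_zero]
    · intro h
      exact absurd (Finset.mem_Icc.2 ⟨le_refl 1, hK⟩) h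
  obtain ⟨t1, δ, ψ, ht1, hδ, hlim⟩ := Pool.Agent.BE01.H59.trj 2 0 a 0 (by norm_num) h0
    (by rw [h1]; linarith)
  refine ⟨t1, fun t => Real.sqrt (δ t), ht1, ?_, ?_⟩
  · intro t ht
    obtain ⟨h2, h3, h4, -⟩ := hδ t ht
    have hs : 0 < Real.sqrt (δ t) := Real.sqrt_pos.2 h2
    have hsq : Real.sqrt (δ t) ^ 2 = δ t := Real.sq_sqrt h2.le
    refine ⟨hs, by rw [Real.sqrt_le_one]; exact h3, ?_⟩
    have h5 := h4.sqrt h2.ne'
    have h6 : δ t * (((2 : ℕ) : ℝ) * a.eval (δ t)) / (2 * Real.sqrt (δ t)) =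
        -(Real.sqrt (δ t) * ∑ i ∈ Finset.Icc 1 K, β i * Real.sqrt (δ t) ^ (2 * i)) := by
      rw [haev]
      have h7 : ∀ i, Real.sqrt (δ t) ^ (2 * i) = δ t ^ i := by
        intro i
        rw [pow_mul, hsq]
      simp only [h7]
      rw [div_eq_iff (by positivity)]
      generalize (∑ i ∈ Finset.Icc 1 K, β i * δ t ^ i) = s
      push_cast
      linear_combination (-2 * s) * (hsq.symm)
    rw [h6] at h5
    exact h5
  · have h8 : (1 : ℝ) / (2 * β 1) = 1 / (((2 : ℕ) : ℝ) * |a.coeff 1|) := by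
      rw [h1, abs_neg, abs_of_pos hβ]
      norm_num
    rw [h8]
    refine hlim.congr' ?_
    filter_upwards [eventually_gt_atTop t1] with t ht
    obtain ⟨h2, -⟩ := hδ t ht
    rw [Real.sq_sqrt h2.le]

end Pool.Agent.BOX.H52
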